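import Pool.Agent.W312.TP.Defs

/-!
# The edges and the slots of the core
-/

set_option autoImplicit false

namespace Pool.Agent.W312.TP

open Pool.Agent.NPC Pool.Agent.H673R2 Pool.Agent.H673R2.Ts

theorem rr_ge {t : ℕ} (ht : 4 ≤ t) : 2 ≤ rr t := by unfold rr; omega

theorem rr_kk {t : ℕ} : 2 * rr t + kk t = t + 1 := by unfold rr kk; omega

theorem kk_le {t : ℕ} : 1 ≤ kk t ∧ kk t ≤ 2 := by unfold kk; omega

theorem rr_le {t : ℕ} : 2 * rr t ≤ t ∧ t ≤ 2 * rr t + 1 := by unfold rr; omega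

theorem mem_cliqueE {n : ℕ} {z : ℕ × ℕ} : z ∈ cliqueE n ↔ z.1 < z.2 ∧ z.2 < n := by
  unfold cliqueE
  rw [List.mem_flatMap]
  constructor
  · rintro ⟨j, hj, h⟩
    rw [List.mem_map] at h
    obtain ⟨i, hi, rfl⟩ := h
    rw [List.mem_range] at hi hj
    exact ⟨hi, hj⟩
  · rintro ⟨h1, h2⟩
    exact ⟨z.2, List.mem_range.2 h2, List.mem_map.2 ⟨z.1, List.mem_range.2 h1, rfl⟩⟩

theorem mem_opE {A : List ℕ} {n m : ℕ} {z : ℕ × ℕ} : z ∈ opE A n m ↔
    ∃ j < m, z.2 = n + j ∧ (z.1 ∈ A ∨ (n ≤ z.1 ∧ z.1 < z.2)) := by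
  unfold opE
  rw [List.mem_flatMap]
  constructor
  · rintro ⟨j, hj, h⟩
    rw [List.mem_map] at h
    obtain ⟨x, hx, rfl⟩ := h
    rw [List.mem_range] at hj
    refine ⟨j, hj, rfl, ?_⟩
    rw [List.mem_append, List.mem_map] at hx
    rcases hx with hx | ⟨i, hi, rfl⟩
    · exact Or.inl hx
    · rw [List.mem_range] at hi
      right
      simp only
      omega
  · rintro ⟨j, hj, h1, h2⟩
    refine ⟨j, List.mem_range.2 hj, List.mem_map.2 ⟨z.1, ?_, ?_⟩⟩
    · rw [List.mem_append, List.mem_map]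
      rcases h2 with h2 | ⟨h2, h3⟩
      · exact Or.inl h2
      · exact Or.inr ⟨z.1 - n, List.mem_range.2 (by omega), by omega⟩
    · rw [← h1]

theorem mem_zipIdx_gad {gs : List Gad} {q : Gad × ℕ} : q ∈ gs.zipIdx ↔ gs[q.2]? = some q.1 := by
  obtain ⟨g, i⟩ := q
  rw [List.mem_zipIdx_iff_getElem?]

/-- The edges of the core. -/
theorem mem_coreE {t p : ℕ} {gs : List Gad} {z : ℕ × ℕ} : z ∈ coreE t p gs ↔
    (z.1 < z.2 ∧ z.2 < nC t p) ∨
    (∃ i < p, ∃ j < rr t - 2, z.2 = hBase t p i + j ∧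
      (z.1 = el t (2 * i) ∨ z.1 = el t (2 * i + 1) ∨ (hBase t p i ≤ z.1 ∧ z.1 < z.2))) ∨
    (∃ i g, gs[i]? = some g ∧ ∃ j < kk t, z.2 = aBase t p i + j ∧
      (z.1 = el t g.2.1 ∨ z.1 = el t g.2.2.1 ∨ z.1 = el t g.2.2.2 ∨
        (aBase t p i ≤ z.1 ∧ z.1 < z.2))) := by
  unfold coreE
  rw [List.mem_append, List.mem_append, mem_cliqueE, List.mem_flatMap, List.mem_flatMap, or_assoc]
  refine or_congr Iff.rfl (or_congr ?_ ?_)
  · constructor
    · rintro ⟨i, hi, h⟩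
      rw [mem_opE] at h
      obtain ⟨j, hj, h1, h2⟩ := h
      refine ⟨i, List.mem_range.1 hi, j, hj, h1, ?_⟩
      simpa [or_assoc] using h2
    · rintro ⟨i, hi, j, hj, h1, h2⟩
      refine ⟨i, List.mem_range.2 hi, mem_opE.2 ⟨j, hj, h1, ?_⟩⟩
      simpa [or_assoc] using h2
  · constructor
    · rintro ⟨q, hq, h⟩
      rw [mem_opE] at h
      obtain ⟨j, hj, h1, h2⟩ := h
      refine ⟨q.2, q.1, mem_zipIdx_gad.1 hq, j, hj, h1, ?_⟩
      simpa [or_assoc] using h2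
    · rintro ⟨i, g, hg, j, hj, h1, h2⟩
      refine ⟨(g, i), mem_zipIdx_gad.2 hg, mem_opE.2 ⟨j, hj, h1, ?_⟩⟩
      simpa [or_assoc] using h2

theorem mem_chain {ν : ℕ} {x : End} {n m : ℕ} {q : Slot} : q ∈ chain ν x n m ↔
    ∃ j < m, q = (ν, lastEnd x n j, (n + j, false)) := by
  unfold chain
  rw [List.mem_map]
  constructor
  · rintro ⟨j, hj, rfl⟩
    exact ⟨j, List.mem_range.1 hj, rfl⟩
  · rintro ⟨j, hj, rfl⟩
    exact ⟨j, List.mem_range.2 hj, rfl⟩

theorem mem_chain_drop {ν : ℕ} {x : End} {n m : ℕ} {q : Slot} : q ∈ (chain ν x n m).drop 1 ↔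
    ∃ j < m, 0 < j ∧ q = (ν, lastEnd x n j, (n + j, false)) := by
  unfold chain
  rw [List.drop_one, List.mem_iff_getElem?]
  constructor
  · rintro ⟨i, hi⟩
    rw [List.getElem?_tail, List.getElem?_map, Option.map_eq_some_iff] at hi
    obtain ⟨j, hj, rfl⟩ := hi
    rw [List.getElem?_eq_some_iff] at hj
    obtain ⟨h1, h2⟩ := hj
    rw [List.getElem_range] at h2
    rw [List.length_range] at h1
    exact ⟨j, by omega, by omega, rfl⟩
  · rintro ⟨j, hj, h0, rfl⟩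
    refine ⟨j - 1, ?_⟩
    rw [List.getElem?_tail, List.getElem?_map, Option.map_eq_some_iff]
    refine ⟨j, ?_, rfl⟩
    rw [List.getElem?_eq_some_iff]
    refine ⟨by rw [List.length_range]; omega, ?_⟩
    rw [List.getElem_range]
    omega

/-- The slots of the core. -/
theorem mem_coreS {t p : ℕ} {gs : List Gad} {q : Slot} : q ∈ coreS t p gs ↔
    (∃ j < t, q = (0, (j, true), (j + 1, false))) ∨
    (∃ i < p, ∃ j < rr t - 2,
      q = (1 + i, lastEnd (el t (2 * i), false) (hBase t p i) j, (hBase t p i + j, false))) ∨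
    (∃ i < p, q = (1 + i, lastEnd (el t (2 * i), false) (hBase t p i) (rr t - 2),
      (el t (2 * i + 1), false))) ∨
    (∃ i g, gs[i]? = some g ∧ ∃ j < kk t, (g.1 = true → 0 < j) ∧
      q = (1 + p + i, lastEnd (el t g.2.1, true) (aBase t p i) j, (aBase t p i + j, false))) := by
  unfold coreS
  rw [List.mem_append, List.mem_append, List.mem_map, List.mem_flatMap, List.mem_flatMap, or_assoc]
  refine or_congr ?_ ?_
  · constructor
    · rintro ⟨j, hj, rfl⟩
      exact ⟨j, List.mem_range.1 hj, rfl⟩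
    · rintro ⟨j, hj, rfl⟩
      exact ⟨j, List.mem_range.2 hj, rfl⟩
  rw [← or_assoc (b := ∃ i < p, q = _)]
  refine or_congr ?_ ?_
  · unfold pairSlots
    constructor
    · rintro ⟨i, hi, h⟩
      rw [List.mem_append, mem_chain, List.mem_singleton] at h
      rcases h with h | h
      · exact Or.inl ⟨i, List.mem_range.1 hi, h⟩
      · exact Or.inr ⟨i, List.mem_range.1 hi, h⟩
    · rintro (⟨i, hi, h⟩ | ⟨i, hi, h⟩)
      · exact ⟨i, List.mem_range.2 hi, by rw [List.mem_append, mem_chain]; exact Or.inl h⟩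
      · exact ⟨i, List.mem_range.2 hi, by rw [List.mem_append, List.mem_singleton]; exact Or.inr h⟩
  · constructor
    · rintro ⟨⟨g, i⟩, hg, h⟩
      refine ⟨i, g, mem_zipIdx_gad.1 hg, ?_⟩
      unfold gadSlots at h
      split_ifs at h with hk
      · rw [mem_chain_drop] at h
        obtain ⟨j, hj, h0, h⟩ := h
        exact ⟨j, hj, fun _ => h0, h⟩
      · rw [mem_chain] at h
        obtain ⟨j, hj, h⟩ := h
        exact ⟨j, hj, fun h1 => absurd h1 hk, h⟩
    · rintro ⟨i, g, hg, j, hj, h0, h⟩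
      refine ⟨(g, i), mem_zipIdx_gad.2 hg, ?_⟩
      unfold gadSlots
      split_ifs with hk
      · exact mem_chain_drop.2 ⟨j, hj, h0 hk, h⟩
      · exact mem_chain.2 ⟨j, hj, h⟩

/-- The vertex of the last end. -/
theorem lastEnd_fst {x : End} {n m : ℕ} : (lastEnd x n m).1 = if m = 0 then x.1 else n + m - 1 := by
  unfold lastEnd
  split_ifs <;> rfl

end Pool.Agent.W312.TP
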