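import Pool.Agent.W312.TP.Stm
import Pool.Agent.W312.TP.Mem
import Pool.Agent.H673R2.TsTree

/-!
# Tree t-spanners of path graphs: assembly
-/

set_option autoImplicit false

namespace Pool.Agent.W312.TP

open Pool.Agent.NPC Pool.Agent.H673R2 Pool.Agent.H673R2.Ts Pool.Agent.H255R3.STC

/-- Adjacency in the graph of a state. -/
theorem instSt_adj {s : St} {x y : Fin s.1} : (graphOf (instSt s)).Adj x y ↔
    x ≠ y ∧ (((x : ℕ), (y : ℕ)) ∈ s.2.2.1 ∨ ((y : ℕ), (x : ℕ)) ∈ s.2.2.1) := by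
  unfold graphOf
  rw [SimpleGraph.fromRel_adj]
  rfl

theorem valid_of {s : St} (h : EOk s) (hc : (graphOf (instSt s)).Connected) : Valid (instSt s) :=
  ⟨h.1, fun e he => h.2.1 e he, hc⟩

/-- Tree spanners as solutions of the weighted problem. -/
theorem span_iff {t : ℕ} {s : St} (h : EOk s) (hc : (graphOf (instSt s)).Connected) :
    HasTreeSpanner t (instSt s) ↔ WSp t s t := by
  have hadj : ∀ x y : Fin s.1, ((x : ℕ), (y : ℕ)) ∈ s.2.2.1 → (graphOf (instSt s)).Adj x y := by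
    intro x y hxy
    rw [instSt_adj]
    refine ⟨fun h1 => ?_, Or.inl hxy⟩
    have := h.2.1 _ hxy
    rw [h1] at this
    simp only at this
    omega
  constructor
  · rintro ⟨T, hle, hT, hd⟩
    have hd1 : ∀ x y : Fin s.1, ((x : ℕ), (y : ℕ)) ∈ s.2.2.1 → T.dist x y ≤ t := by
      intro x y hxy
      have h1 := hd x y
      have h2 : (graphOf (instSt s)).dist x y = 1 := SimpleGraph.dist_eq_one_iff_adj.2 (hadj x y hxy)
      rw [h2, mul_one] at h1
      exact h1
    refine ⟨T, hT, fun x y hxy => (instSt_adj.1 (hle hxy)).2, hd1, ?_⟩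
    intro q hq x y hx hy
    rcases h.2.2 q hq with h1 | h1
    · rw [← hx, ← hy] at h1
      exact hd1 x y h1
    · rw [← hx, ← hy] at h1
      rw [SimpleGraph.dist_comm]
      exact hd1 y x h1
  · rintro ⟨T, hT, hE, hd, -⟩
    have hle : T ≤ graphOf (instSt s) := by
      intro x y hxy
      rw [instSt_adj]
      exact ⟨hxy.ne, hE x y hxy⟩
    refine ⟨T, hle, hT, ?_⟩
    refine stretch_of_adj hc hT.connected ?_
    intro x y hxy
    rcases (instSt_adj.1 hxy).2 with h1 | h1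
    · exact hd x y h1
    · rw [SimpleGraph.dist_comm]
      exact hd y x h1

theorem iter_ok (hE : EXPOK) {s : St} (h : EOk s) (hc : (graphOf (instSt s)).Connected) (j : ℕ) :
    EOk (expand^[j] s) ∧ (graphOf (instSt (expand^[j] s))).Connected := by
  induction j with
  | zero => exact ⟨h, hc⟩
  | succ j ih =>
    rw [Function.iterate_succ_apply']
    exact ⟨(hE _ ih.1).1, (hE _ ih.1).2 ih.2⟩

theorem iter_bok (hB : BEXP) {s : St} (h : BOk s) (j : ℕ) : BOk (expand^[j] s) := by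
  induction j with
  | zero => exact h
  | succ j ih =>
    rw [Function.iterate_succ_apply']
    exact hB _ ih

theorem iter_wsp (hE : EXPOK) (hL : LEVEL) {t : ℕ} {s : St} (h : EOk s)
    (hc : (graphOf (instSt s)).Connected) (j : ℕ) (hj : j + 1 ≤ t) :
    WSp t (expand^[j] s) (j + 1) ↔ WSp t s 1 := by
  induction j with
  | zero => exact Iff.rfl
  | succ j ih =>
    rw [Function.iterate_succ_apply', hL t _ (j + 1 + 1) (iter_ok hE h hc j).1 (by omega) hj]
    exact ih (by omega)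

theorem path_of_bok (hP : PGT) {s : St} (h : BOk s) (hs : EOk s) :
    IsPathGraph (graphOf (instSt s)) := by
  obtain ⟨e, he, -⟩ := h
  refine hP _ _ _ e he _ ?_
  intro x y hxy
  rw [instSt_adj]
  constructor
  · rintro ⟨-, h1 | h1⟩
    · exact h1
    · have := (hs.2.1 _ h1).1
      have hxy' : (x : ℕ) < y := hxy
      simp only at this
      omega
  · intro h1
    exact ⟨hxy.ne, Or.inl h1⟩

/-- The reduction is correct. -/
theorem inst_iff (hE : EXPOK) (hL : LEVEL) (hO : COREOK) (hG : GAD) (hCT : CT) (hCP : CPL)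
    {t p : ℕ} {gs : List Gad} (ht : 4 ≤ t) (hp : POk p gs) :
    PSat p gs ↔ HasTreeSpanner t (inst t p gs) := by
  obtain ⟨h1, h2⟩ := hO t p gs ht hp
  obtain ⟨h3, h4⟩ := iter_ok hE h1 h2 (t - 1)
  unfold inst
  rw [span_iff h3 h4]
  have h5 := iter_wsp hE hL (t := t) h1 h2 (t - 1) (by omega)
  rw [show t - 1 + 1 = t by omega] at h5
  rw [h5]
  constructor
  · exact hCP t p gs ht hp
  · intro h
    obtain ⟨V, T, c, P, a, hT⟩ := hCT t p gs ht hp h
    exact hG t p gs V T c P a ht hp hT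

/-- The instances are valid path graphs. -/
theorem inst_ok (hE : EXPOK) (hO : COREOK) (hP : PGT) (hB : BEXP) (hC : BCORE)
    {t p : ℕ} {gs : List Gad} (ht : 4 ≤ t) (hp : POk p gs) :
    Valid (inst t p gs) ∧ IsPathGraph (graphOf (inst t p gs)) := by
  obtain ⟨h1, h2⟩ := hO t p gs ht hp
  obtain ⟨h3, h4⟩ := iter_ok hE h1 h2 (t - 1)
  exact ⟨valid_of h3 h4, path_of_bok hP (iter_bok hB (hC t p gs ht hp) (t - 1)) h3⟩

theorem poly_iter (hX : PEXP) (j : ℕ) : NPC.Poly (fun s : St => expand^[j] s) := by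
  induction j with
  | zero => exact NPC.Poly.id
  | succ j ih =>
    refine (NPC.Poly.comp hX ih).congr fun s => ?_
    rw [Function.iterate_succ_apply']

theorem poly_inst (hX : PEXP) (hC : PCORE) (hS : SATPOLY) (t : ℕ) :
    NPC.Poly (fun φ : List (Lit ℕ × Lit ℕ × Lit ℕ) => inst t (pOf φ) (gOf φ)) := by
  have h1 := hC _ t pOf gOf hS.1 hS.2
  have h2 := NPC.Poly.comp (poly_iter hX (t - 1)) h1
  exact NPC.Poly.pair (NPC.Poly.fst h2) (NPC.Poly.fst (NPC.Poly.snd (NPC.Poly.snd h2)))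

/-- TREE t-SPANNER is `NP`-hard on path graphs for `t ≥ 4`. -/
theorem hard (hE : EXPOK) (hL : LEVEL) (hO : COREOK) (hG : GAD) (hCT : CT) (hCP : CPL) (hP : PGT)
    (hB : BEXP) (hC : BCORE) (hX : PEXP) (hPC : PCORE) (hS : SATPOLY) (hS1 : SATOK) (hS2 : SATEQ)
    {t : ℕ} (ht : 4 ≤ t) :
    NPHardOn (fun I => Valid I ∧ IsPathGraph (graphOf I)) (HasTreeSpanner t) := by
  refine npHardOn_of hardPr_SAT3b (f := fun φ => inst t (pOf φ) (gOf φ)) (poly_inst hX hPC hS t)
    ?_ ?_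
  · rintro φ ⟨h1, h2, -⟩
    exact inst_ok hE hO hP hB hC ht (hS1 φ h1 h2)
  · rintro φ ⟨h1, h2, -⟩
    rw [hS2 φ h2]
    exact inst_iff hE hL hO hG hCT hCP ht (hS1 φ h1 h2)

end Pool.Agent.W312.TP
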