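import Pool.Agent.W312.TP.Stm

/-!
# Tree t-spanners of path graphs: being a path graph is in NP

Statements with complete proofs in the comments.
-/

set_option autoImplicit false

namespace Pool.Agent.W312.TP

open Pool.Agent.NPC Pool.Agent.H673R2 Pool.Agent.H673R2.Ts

/-- A certificate for a path graph: a tree with at most `n + 1` nodes given by the lists of parents
and levels (the root is `0`) and for every vertex the list of the nodes of its path. -/
def PGCert (I : Inst) (par lev : List ℕ) (Q : List (List ℕ)) : Prop :=
  0 < par.length ∧ par.length ≤ I.1 + 1 ∧ lev.length = par.length ∧ Q.length = I.1 ∧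
  (∀ l ∈ lev, l ≤ I.1 + 1) ∧ (∀ x ∈ par, x < par.length) ∧
  (∀ i < par.length, 0 < i → lev.getD (par.getD i 0) 0 < lev.getD i 0) ∧
  (∀ q ∈ Q, q ≠ [] ∧ q.Nodup ∧ (∀ x ∈ q, x < par.length) ∧
    q.IsChain (fun x y => (x ≠ 0 ∧ y = par.getD x 0) ∨ (y ≠ 0 ∧ x = par.getD y 0))) ∧
  ∀ v < I.1, ∀ u < v, ((u, v) ∈ I.2 ↔ ∃ x, x ∈ Q.getD u [] ∧ x ∈ Q.getD v [])

/-- PGCA: a path graph on `n` vertices has a certificate.
Proof. Let `H` be the tree with the paths `P v`, and `d` its distance. If `n = 0` take one node. Fix a
node `ρ` of `H`. Write `x ≤ y` (`x` is an ancestor of `y`) for `d(ρ, x) + d(x, y) = d(ρ, y)`; the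
ancestors of `y` are the vertices of the path from `ρ` to `y`, and are totally ordered by `d(ρ, ·)`:
if `x, x' ≤ y` and `d(ρ, x) ≤ d(ρ, x')` then `x ≤ x'`. Let `top v` be the projection of `ρ` to `P v`
(`PROJ` may be used as a hypothesis): if `p 0, …, p L` are the vertices of `P v` in order (its
support) and `top v = p i`, then `d(ρ, p j) = d(ρ, p i) + |j - i|`; so `p i ≤ p j`, moreover
`p j' ≤ p j` if `j' ` is between `i` and `j` (as `d(p j', p j) = |j - j'|`).
Let `S = {ρ} ∪ {top v}`, `|S| ≤ n + 1`; number the elements of `S` by `0, …, N' - 1` such that `ρ`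
has number `0`. The new parent of `s ∈ S`, `s ≠ ρ`, is the element of `{s' ∈ S | s' ≤ s, s' ≠ s}`
(which contains `ρ`) with the largest `d(ρ, ·)`; the new level of `s` is the number of elements
`s' ∈ S`, `s' ≤ s`, `s' ≠ s`; it is at most `n`, and strictly smaller for the new parent (`≤` is
transitive). `Q v` is the list of the numbers of the elements of `S` in the support of `P v`, in the
order of the support (`List.filter`, then `List.map`). It is not empty (`top v`), without repetition.
Consecutive elements `x = p j`, `y = p l`, `j < l`, of `S` in the support: there is no element of `S`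
strictly between, in particular not `i` with `j < i < l`. So `l ≤ i` or `i ≤ j`. In the first case
`y ≤ x`, and `y` is the new parent of `x`: any `s ∈ S`, `s ≤ x`, `s ≠ x`, with `d(ρ, s) > d(ρ, y)`
satisfies `y ≤ s ≤ x`, so `s` is on the path between `y` and `x`, which is the part `p j, …, p l` of
the support: a contradiction. The second case is symmetric.
Adjacency: if `Q u` and `Q v` meet then `P u` and `P v` meet. Conversely let `x ∈ P u ∩ P v`, and say
`d(ρ, top v) ≤ d(ρ, top u)`. Then `top v ≤ x` and `top u ≤ x`, so `top v ≤ top u ≤ x`, and `top u` is on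
the path from `top v` to `x`, which is contained in `P v`; so `top u` is in `S`, `P u` and `P v`.
For `u < v` the pair `(u, v)` is in `I.2` iff the vertices are adjacent (`Valid`: all pairs of the
list satisfy `x < y`). -/
def PGCA : Prop := ∀ I : Inst, Valid I → IsPathGraph (graphOf I) →
  ∃ (par lev : List ℕ) (Q : List (List ℕ)), PGCert I par lev Q

/-- PGCB: a graph with a certificate is a path graph.
Proof. `N = par.length`, `H` the graph on `Fin N` of the parent function with root `0`
(`Pool.Agent.H673R2.Ts.isTree_of_parent` with `lev`); a nonempty list of numbers `< N` which is a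
chain for the adjacency and has no repetition is the support of a path of `H` (induction on the
list); adjacency of `graphOf I`: see `instSt_adj` in `Asm.lean` and `Valid`. -/
def PGCB : Prop := ∀ I : Inst, Valid I → (∃ (par lev : List ℕ) (Q : List (List ℕ)),
  PGCert I par lev Q) → IsPathGraph (graphOf I)

/-- PGCC: the certificates can be checked in polynomial time.
Proof. `inNPP_of` in `Pool.Agent.NPC.Dec` with the certificate `w = (par, lev, Q)`; the test first
checks `I.1 ≤ I.2.length + 1`, and then every condition of `PGCert` (use
`List.range (min I.1 (I.2.length + 1))` for the quantifiers over `u, v`, with `UPoly.of_le`; `Poly.all`,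
`Poly.any`, `Poly.getD`, `Poly.decide_mem`, ...). Size: all lists have length at most `n + 1`, all
entries are numbers `≤ n + 1`, and `n ≤ I.2.length + 1`, so the size of `w` is at most a polynomial in
the size of `I` (`sz_le_length_mul`, `sz_nat_le`, `length_lt_sz`). -/
def PGCC : Prop := InNPP (fun I : Inst => I.1 ≤ I.2.length + 1 ∧
  ∃ (par lev : List ℕ) (Q : List (List ℕ)), PGCert I par lev Q)

/-- VNP: well formed connected instances are in NP, and have at least `n - 1` edges.
Proof. A certificate for the connectedness: lists of parents and levels of length `n` with root `0`,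
with levels `≤ n`, such that for every `0 < x < n` the parent of `x` is adjacent to `x` and has a
smaller level. Exists for connected graphs (distance from `0`); conversely every vertex has a walk to
`0`. Use `min n (|E| + 1)` for the quantifiers and check `1 ≤ n ≤ |E| + 1` first (a connected graph
with `n` vertices has at least `n - 1` edges: the pairs `{x, parent x}`; or
`SimpleGraph.Connected.card_vert_le_card_edgeSet_add_one`). -/
def VNP : Prop := InNPP (fun I : Inst => Valid I) ∧ ∀ I : Inst, Valid I → I.1 ≤ I.2.length + 1

end Pool.Agent.W312.TP
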