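import Pool.Agent.W312.TP.Asm
import Pool.Agent.W312.TP.Stm2
import Pool.Agent.H578R2.Med.NPClos

/-!
# Tree t-spanners of path graphs: NP-completeness of the restricted problem
-/

set_option autoImplicit false

namespace Pool.Agent.W312.TP

open Pool.Agent.NPC Pool.Agent.H673R2 Pool.Agent.H673R2.Ts Pool.Agent.H255R3.STC

/-- The valid path graphs with a tree `t`-spanner are in NP. -/
theorem mem_np (hN : NPM) (hA : PGCA) (hB : PGCB) (hC : PGCC) (hV : VNP) (t : ℕ) :
    InNPP (fun I : Inst => Valid I ∧ IsPathGraph (graphOf I) ∧ HasTreeSpanner t I) := by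
  have h1 := Med.InNPP.and (hN t) hC
  have h2 : (fun I : Inst => (Valid I ∧ HasTreeSpanner t I) ∧ I.1 ≤ I.2.length + 1 ∧
      ∃ (par lev : List ℕ) (Q : List (List ℕ)), PGCert I par lev Q) =
      fun I : Inst => Valid I ∧ IsPathGraph (graphOf I) ∧ HasTreeSpanner t I := by
    funext I
    apply propext
    constructor
    · rintro ⟨⟨h1, h2⟩, -, h3⟩
      exact ⟨h1, hB I h1 h3, h2⟩
    · rintro ⟨h1, h2, h3⟩
      exact ⟨⟨h1, h3⟩, hV.2 I h1, hA I h1 h2⟩
  rw [h2] at h1
  exact h1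

/-- A promise reduction gives hardness of the restricted language. -/
theorem hard_lang {α : Type} [TEnc α] {Pr P : α → Prop} (h : NPHardOn Pr P) :
    NPHardP (fun a => Pr a ∧ P a) := by
  intro L hL
  obtain ⟨f, hf, h1, h2⟩ := h L hL
  refine ⟨fun x => bits (f x), hf, fun x => ?_⟩
  rw [bits_mem_lang]
  exact ⟨fun hx => ⟨h1 x, (h2 x).1 hx⟩, fun hx => (h2 x).2 hx.2⟩

end Pool.Agent.W312.TP
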