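import Pool.Agent.NPC.Sat2
import Pool.Agent.H673R2.HardOn
import Pool.Agent.H673R2.TsDefs

/-!
# Tree t-spanners of path graphs: definitions

Reduction from 3SAT to TREE t-SPANNER on path graphs, for every fixed `t ≥ 4`.

A state describes a graph together with some of its edges, the slots, to which gadgets will be
attached, and the places of the slots in a tree of which the graph is the intersection graph of
paths. `expand` puts a triangle on every slot. The graph of the reduction is `expand^[t-1] (core ..)`.
-/

set_option autoImplicit false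

namespace Pool.Agent.W312.TP

open Pool.Agent.NPC Pool.Agent.H673R2 Pool.Agent.H673R2.Ts

/-! ### Path graphs -/

/-- A path graph: the vertex-intersection graph of a finite family of paths in a tree. The vertex
`v` is the path `P v`, with ends `a v` and `b v`. -/
def IsPathGraph {V : Type} (G : SimpleGraph V) : Prop :=
  ∃ (N : ℕ) (H : SimpleGraph (Fin N)), H.IsTree ∧
    ∃ (a b : V → Fin N) (P : (v : V) → H.Path (a v) (b v)),
      ∀ u v, u ≠ v → (G.Adj u v ↔ ∃ x, x ∈ (P u).1.support ∧ x ∈ (P v).1.support)

/-! ### The intermediate problem -/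

/-- A gadget: a kind and three elements. -/
abbrev Gad : Type := Bool × ℕ × ℕ × ℕ

/-- The condition of a gadget: of kind `true`, one of the three elements is true; of kind `false`,
the first element is true or both the second and the third one are. -/
def gadSat (τ : ℕ → Bool) (g : Gad) : Prop :=
  if g.1 = true then τ g.2.1 = true ∨ τ g.2.2.1 = true ∨ τ g.2.2.2 = true
  else τ g.2.1 = true ∨ (τ g.2.2.1 = true ∧ τ g.2.2.2 = true)

/-- There are `2 * p` elements; of `2 * i` and `2 * i + 1` exactly one is true, and all gadgets are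
satisfied. -/
def PSat (p : ℕ) (gs : List Gad) : Prop :=
  ∃ τ : ℕ → Bool, (∀ i < p, τ (2 * i + 1) = !(τ (2 * i))) ∧ ∀ g ∈ gs, gadSat τ g

/-- The elements of the gadgets. -/
def elts (gs : List Gad) : List ℕ := gs.flatMap fun g => [g.2.1, g.2.2.1, g.2.2.2]

/-- Every element occurs at most once in the gadgets. -/
def POk (p : ℕ) (gs : List Gad) : Prop := (elts gs).Nodup ∧ ∀ e ∈ elts gs, e < 2 * p

/-! ### States -/

/-- One of the two ends of (the path of) a vertex. -/
abbrev End : Type := ℕ × Bool

/-- A slot: a node of the tree and two ends which are at this node. -/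
abbrev Slot : Type := ℕ × End × End

/-- A state: number of vertices, number of nodes of the tree, edges, slots. -/
abbrev St : Type := ℕ × ℕ × List (ℕ × ℕ) × List Slot

/-- The edges of the triangles on the slots `L`; the new vertices are `n, n + 1, …` -/
def newEdges (n : ℕ) (L : List Slot) : List (ℕ × ℕ) :=
  L.zipIdx.flatMap fun q => [(q.1.2.1.1, n + q.2), (q.1.2.2.1, n + q.2)]

/-- The new slots: the new edges of the triangles. The new nodes are `N, N + 1, …` -/
def newSlots (n N : ℕ) (L : List Slot) : List Slot :=
  L.zipIdx.flatMap fun q =>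
    [(N + q.2, q.1.2.1, (n + q.2, false)), (N + q.2, (n + q.2, true), q.1.2.2)]

/-- A triangle is put on every slot. -/
def expand (s : St) : St :=
  (s.1 + s.2.2.2.length, s.2.1 + s.2.2.2.length, s.2.2.1 ++ newEdges s.1 s.2.2.2,
    newSlots s.1 s.2.1 s.2.2.2)

/-- The graph of a state has a spanning tree in which the edges are stretched to length at most `t`
and the slots to length at most `c`. -/
def WSp (t : ℕ) (s : St) (c : ℕ) : Prop :=
  ∃ T : SimpleGraph (Fin s.1), T.IsTree ∧
    (∀ x y : Fin s.1, T.Adj x y → ((x : ℕ), (y : ℕ)) ∈ s.2.2.1 ∨ ((y : ℕ), (x : ℕ)) ∈ s.2.2.1) ∧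
    (∀ x y : Fin s.1, ((x : ℕ), (y : ℕ)) ∈ s.2.2.1 → T.dist x y ≤ t) ∧
    ∀ q ∈ s.2.2.2, ∀ x y : Fin s.1, (x : ℕ) = q.2.1.1 → (y : ℕ) = q.2.2.1 → T.dist x y ≤ c

/-- The state is well formed: the edges are different pairs `(x, y)` with `x < y < n`, and the slots
are edges. -/
def EOk (s : St) : Prop :=
  s.2.2.1.Nodup ∧ (∀ e ∈ s.2.2.1, e.1 < e.2 ∧ e.2 < s.1) ∧
    ∀ q ∈ s.2.2.2, (q.2.1.1, q.2.2.1) ∈ s.2.2.1 ∨ (q.2.2.1, q.2.1.1) ∈ s.2.2.1

/-- The graph of a state. -/
def instSt (s : St) : Inst := (s.1, s.2.2.1)

/-! ### The graph of the reduction -/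

/-- The radius of a tree of diameter `t`. -/
def rr (t : ℕ) : ℕ := t / 2

/-- The number of new vertices of a gadget: `1` if `t` is even and `2` if `t` is odd. -/
def kk (t : ℕ) : ℕ := t - 2 * (t / 2) + 1

/-- All pairs `(i, j)` with `i < j < n`. -/
def cliqueE (n : ℕ) : List (ℕ × ℕ) := (List.range n).flatMap fun j => (List.range j).map fun i => (i, j)

/-- The new edges when the vertices `n, …, n + m - 1` are added to the clique `A`. -/
def opE (A : List ℕ) (n m : ℕ) : List (ℕ × ℕ) :=
  (List.range m).flatMap fun j => (A ++ (List.range j).map (fun i => n + i)).map fun x => (x, n + j)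

/-- The last end on the way from `x` through the vertices `n, …, n + m - 1`. -/
def lastEnd (x : End) (n m : ℕ) : End := if m = 0 then x else (n + m - 1, true)

/-- The slots on the way from `x` through `n, …, n + m - 1`, at the node `ν`. -/
def chain (ν : ℕ) (x : End) (n m : ℕ) : List Slot :=
  (List.range m).map fun j => (ν, lastEnd x n j, (n + j, false))

/-- The vertex which is the element `e`. -/
def el (t e : ℕ) : ℕ := t + 1 + e

/-- The size of the big clique: the vertices `0, …, t` of the centre path, and the elements. -/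
def nC (t p : ℕ) : ℕ := t + 1 + 2 * p

/-- The first inner vertex of the path between the elements `2 * i` and `2 * i + 1`. -/
def hBase (t p i : ℕ) : ℕ := nC t p + (rr t - 2) * i

/-- The first new vertex of the gadget number `g`. -/
def aBase (t p g : ℕ) : ℕ := nC t p + (rr t - 2) * p + kk t * g

/-- The edges of the core. -/
def coreE (t p : ℕ) (gs : List Gad) : List (ℕ × ℕ) :=
  cliqueE (nC t p) ++
    ((List.range p).flatMap fun i =>
      opE [el t (2 * i), el t (2 * i + 1)] (hBase t p i) (rr t - 2)) ++
    (gs.zipIdx.flatMap fun g =>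
      opE [el t g.1.2.1, el t g.1.2.2.1, el t g.1.2.2.2] (aBase t p g.2) (kk t))

/-- The slots of the gadget `g` with number `i`. -/
def gadSlots (t p : ℕ) (g : Gad) (i : ℕ) : List Slot :=
  if g.1 = true then (chain (1 + p + i) (el t g.2.1, true) (aBase t p i) (kk t)).drop 1
  else chain (1 + p + i) (el t g.2.1, true) (aBase t p i) (kk t)

/-- The slots of the pair `i`. -/
def pairSlots (t p i : ℕ) : List Slot :=
  chain (1 + i) (el t (2 * i), false) (hBase t p i) (rr t - 2) ++
    [(1 + i, lastEnd (el t (2 * i), false) (hBase t p i) (rr t - 2), (el t (2 * i + 1), false))]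

/-- The slots of the core. -/
def coreS (t p : ℕ) (gs : List Gad) : List Slot :=
  ((List.range t).map fun j => (0, (j, true), (j + 1, false))) ++
    ((List.range p).flatMap fun i => pairSlots t p i) ++
    (gs.zipIdx.flatMap fun g => gadSlots t p g.1 g.2)

/-- The core: the centre path and the elements form a clique; the two elements of a pair are the
ends of a path with `t / 2 - 2` inner vertices, all in a clique; every gadget adds a clique on its
three elements and `1` or `2` new vertices. The slots are the edges which are forced into the tree. -/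
def core (t p : ℕ) (gs : List Gad) : St :=
  (aBase t p gs.length, 1 + p + gs.length, coreE t p gs, coreS t p gs)

/-- The graph of the reduction. -/
def inst (t p : ℕ) (gs : List Gad) : Inst := instSt (expand^[t - 1] (core t p gs))

/-! ### The path representation -/

/-- A graph (the set `E` of pairs on the vertices `0, …, n - 1`) that is built together with a tree
with nodes `0, …, N - 1`; `e v b` is the node at the end `b` of the path of `v`. A step adds a new
node adjacent to the node `ν`, extends the ends in `A`, which are at `ν`, to it, and adds `m` new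
vertices whose paths consist of the new node. -/
inductive Built : ℕ → ℕ → Set (ℕ × ℕ) → (ℕ → Bool → ℕ) → Prop
  | root (k : ℕ) : Built k 1 {z | z.1 < z.2 ∧ z.2 < k} (fun _ _ => 0)
  | op {n N : ℕ} {E : Set (ℕ × ℕ)} {e : ℕ → Bool → ℕ} (h : Built n N E e) (ν : ℕ)
      (A : List End) (m : ℕ) (hν : ν < N) (hA : ∀ z ∈ A, z.1 < n ∧ e z.1 z.2 = ν)
      (hd : (A.map Prod.fst).Nodup) :
      Built (n + m) (N + 1)
        {z | z ∈ E ∨ (n ≤ z.2 ∧ z.2 < n + m ∧ (z.1 ∈ A.map Prod.fst ∨ (n ≤ z.1 ∧ z.1 < z.2)))}
        (fun v b => if (v, b) ∈ A ∨ n ≤ v then N else e v b)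

/-- The slots are at their nodes, and their ends are different. -/
def SlotOk (n N : ℕ) (e : ℕ → Bool → ℕ) (L : List Slot) : Prop :=
  (L.flatMap fun q => [q.2.1, q.2.2]).Nodup ∧
    ∀ q ∈ L, q.1 < N ∧ q.2.1.1 < n ∧ q.2.2.1 < n ∧ q.2.1.1 ≠ q.2.2.1 ∧
      e q.2.1.1 q.2.1.2 = q.1 ∧ e q.2.2.1 q.2.2.2 = q.1

/-- A state with a path representation. -/
def BOk (s : St) : Prop := ∃ e, Built s.1 s.2.1 {z | z ∈ s.2.2.1} e ∧ SlotOk s.1 s.2.1 e s.2.2.2

end Pool.Agent.W312.TP
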