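import Pool.Agent.W312.TP.Asm
import Pool.Agent.W312.TP.Asm2
import Pool.Agent.W312.T3.Final
import Pool.Agent.W790.TP.UP
import Pool.Agent.W368.TP.DOWN
import Pool.Agent.W392.TP.LEVEL
import Pool.Agent.W922.TP.EXPOK
import Pool.Agent.W371.TP.COREOK
import Pool.Agent.W371.TP.PROJ
import Pool.Agent.W935.TP.FOUR
import Pool.Agent.W369.TP.PAR
import Pool.Agent.W249.TP.BB
import Pool.Agent.W101.TP.TF
import Pool.Agent.W230.TP.DD
import Pool.Agent.W369.TP.GAD
import Pool.Agent.W98.TP.CT
import Pool.Agent.W639.TP.PT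
import Pool.Agent.W103.TP.CPL
import Pool.Agent.W557.TP.PGT
import Pool.Agent.W681.TP.BEXP
import Pool.Agent.W924.TP.BCORE
import Pool.Agent.W32.TP.CHO
import Pool.Agent.W179.TP.SATOK
import Pool.Agent.W636.TP.SATEQ
import Pool.Agent.W315.TP.SATPOLY
import Pool.Agent.W349.TP.PCORE
import Pool.Agent.W947.TP.NPM
import Pool.Agent.W428.TP.PGCA
import Pool.Agent.W392.TP.PGCB
import Pool.Agent.W999.TP.PGCC
import Pool.Agent.W214.TP.VNP

/-!
# Tree t-spanners of path graphs: the theorem
-/

set_option autoImplicit false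

namespace Pool.Agent.W312.TP

open Pool.Agent.NPC Pool.Agent.H673R2 Pool.Agent.H673R2.Ts Pool.Agent.H255R3.STC

/-- The restricted problem is hard for every `t ≥ 4`. -/
theorem hard_path {t : ℕ} (ht : 4 ≤ t) :
    NPHardOn (fun I => Valid I ∧ IsPathGraph (graphOf I)) (HasTreeSpanner t) := by
  have hFOUR := W935.TP.proof_FOUR W371.TP.proof_PROJ
  have hBB := W249.TP.proof_BB W371.TP.proof_PROJ
  have hTF := W101.TP.proof_TF W371.TP.proof_PROJ hFOUR W369.TP.proof_PAR hBB
  have hDD := W230.TP.proof_DD hFOUR W369.TP.proof_PAR hBB hTF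
  exact hard W922.TP.proof_EXPOK
    (W392.TP.proof_LEVEL W790.TP.proof_UP W368.TP.DOWN.proof_DOWN) W371.TP.proof_COREOK
    (W369.TP.proof_GAD hTF hDD) W98.TP.proof_CT (W103.TP.proof_CPL W639.TP.proof_PT)
    W557.TP.proof_PGT W681.TP.proof_BEXP W924.TP.proof_BCORE W349.TP.proof_PEXP
    W349.TP.proof_PCORE W315.TP.proof_SATPOLY W179.TP.proof_SATOK W636.TP.proof_SATEQ ht

/-- The restricted problem is in NP for every `t`. -/
theorem np_path (t : ℕ) :
    InNPP (fun I : Inst => Valid I ∧ IsPathGraph (graphOf I) ∧ HasTreeSpanner t I) :=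
  mem_np W947.TP.proof_NPM (W428.TP.PGCA.proof_PGCA W371.TP.proof_PROJ) W392.TP.proof_PGCB
    W999.TP.proof_PGCC W214.TP.proof_VNP t

/-- Path graphs are chordal. -/
theorem chordal_path {n : ℕ} {G : SimpleGraph (Fin n)} (h : IsPathGraph G) : IsChordal G :=
  W32.TP.proof_CHO W371.TP.proof_PROJ n G h

/-- The restricted problem for `t = 3` is solvable in polynomial time. -/
theorem poly_path : ∃ A : List Bool → List Bool, PolyTime A ∧ ∀ I : Inst, Valid I →
    IsPathGraph (graphOf I) → (HasTreeSpanner 3 I → A (bits I) = [true]) ∧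
      (¬ HasTreeSpanner 3 I → A (bits I) = [false]) := by
  obtain ⟨alg, ha, hd⟩ := Pool.Agent.W312.T3.decide_chordal
  have hp : NPC.Poly (fun x : List Bool => (unbits Inst x).elim false (fun I => alg I)) :=
    (NPC.Poly.optCases (g := fun _ => false) (h := fun _ I => alg I) poly_unbits
      (NPC.Poly.const false) (ha.comp (NPC.Poly.snd NPC.Poly.id))).congr fun a => by
        cases unbits Inst a <;> rfl
  refine ⟨_, polyTime_of_poly hp, fun I hI hch => ?_⟩
  rw [unbits_bits, Option.elim_some, ← hd I hI (chordal_path hch)]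
  exact ⟨fun h => by rw [h], fun h => by rw [Bool.not_eq_true] at h; rw [h]⟩

end Pool.Agent.W312.TP
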