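import Pool.Agent.W312.TP.Defs
import Pool.Agent.H255R3.STC.Chordal

/-!
# Tree t-spanners of path graphs: statements

Every statement below is a `Prop` with a complete proof in its comment. `r = rr t = t / 2`,
`k = kk t = t - 2 r + 1 ∈ {1, 2}`, so `2 r + k = t + 1`.
-/

set_option autoImplicit false

namespace Pool.Agent.W312.TP

open Pool.Agent.NPC Pool.Agent.H673R2 Pool.Agent.H673R2.Ts Pool.Agent.H255R3.STC

/-! ### A. Removing and adding a vertex of degree two -/

/-- There is a tree on `0, …, n - 1` with edges in `E` which satisfies the distance bounds `C`. -/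
def WS (n : ℕ) (E : Set (ℕ × ℕ)) (C : Set (ℕ × ℕ × ℕ)) : Prop :=
  ∃ T : SimpleGraph (Fin n), T.IsTree ∧
    (∀ x y : Fin n, T.Adj x y → ((x : ℕ), (y : ℕ)) ∈ E ∨ ((y : ℕ), (x : ℕ)) ∈ E) ∧
    ∀ x y : Fin n, ∀ c, ((x : ℕ), (y : ℕ), c) ∈ C → T.dist x y ≤ c

/-- UP. Proof. Let `T'` be the tree on `n + 1` vertices and `m = n` the last vertex; its only
possible neighbours are `a` and `b`, and it has at least one (`T'` is connected and has at least two
vertices). The statement is symmetric in `a` and `b` (the distance is symmetric), so let `m ~ a`.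
Root `T'` at `a`: for `x ≠ a` let `par' x` be a neighbour of `x` with `d(a, par' x) = d(a, x) - 1`
(exists; in a tree it is unique, and adjacent `x, y` satisfy `par' x = y` or `par' y = x`:
`IsTree.dist_eq_dist_add_one_of_adj` says that the distances differ by exactly one). For `x < n`,
`x ≠ a` let `par x = a` if `par' x = m`, and `par x = par' x` otherwise; `lev x = d(a, x)` decreases,
so (`Pool.Agent.H673R2.Ts.isTree_of_parent`) this is a tree `T` on `Fin n`. Its edges are in `E`: if
`par' x = m` then `x` is a neighbour of `m` other than `a`, so `x = b`, and `a b` is in `E`. Let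
`φ x = x` for `x < n` and `φ m = a`. For adjacent `x, y` in `T'` the vertices `φ x, φ y` are equal or
adjacent in `T`; so (induction on a walk) `d_T(φ x, φ y) ≤ d_T'(x, y)`. This gives the bounds `C`.
Bound for `a b`: if `m ~ b` then `par' b = m`, `a b` is an edge of `T` and `1 ≤ c - 1`. Otherwise the
only neighbour of `m` is `a`, so `d_T'(b, m) = d_T'(b, a) + 1` (the neighbour of `m` nearer to `b` can
only be `a`), and `d_T(a, b) ≤ d_T'(a, b) ≤ c - 1`. -/
def UP : Prop := ∀ (n : ℕ) (E : Set (ℕ × ℕ)) (C : Set (ℕ × ℕ × ℕ)) (a b c : ℕ),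
  a < n → b < n → a ≠ b → ((a, b) ∈ E ∨ (b, a) ∈ E) → 2 ≤ c → (∀ z ∈ E, z.1 < n ∧ z.2 < n) →
  WS (n + 1) {z | z ∈ E ∨ z = (a, n) ∨ z = (b, n)} {z | z ∈ C ∨ z = (a, n, c) ∨ z = (b, n, c)} →
  WS n E {z | z ∈ C ∨ z = (a, b, c - 1)}

/-- DOWN. Proof. Let `T` be the tree on `n` vertices. Add the vertex `m = n` and the edge `m a`: this
is a tree `T'` (a parent function: root `T` at `a`, `par m = a`, `lev x = d(a, x)`, `lev m = 1`; or
directly), distances between old vertices do not increase (walks are mapped), `d(a, m) ≤ 1 ≤ c` and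
`d(b, m) ≤ d(b, a) + 1 ≤ (c - 1) + 1 = c`. -/
def DOWN : Prop := ∀ (n : ℕ) (E : Set (ℕ × ℕ)) (C : Set (ℕ × ℕ × ℕ)) (a b c : ℕ),
  a < n → b < n → a ≠ b → 2 ≤ c → (∀ z ∈ E, z.1 < n ∧ z.2 < n) →
  (∀ z ∈ C, z.1 < n ∧ z.2.1 < n) →
  WS n E {z | z ∈ C ∨ z = (a, b, c - 1)} →
  WS (n + 1) {z | z ∈ E ∨ z = (a, n) ∨ z = (b, n)} {z | z ∈ C ∨ z = (a, n, c) ∨ z = (b, n, c)}

/-- LEVEL (may use `UP` and `DOWN` as hypotheses). Proof. Induction on the list `L` of slots, for
arbitrary `n`, `E`, `C`: if all slots of `L` have their vertices `a ≠ b` below `n` and are edges in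
`E` (in one of the two directions), then `WS (n + |L|) (E ∪ newEdges n L)
(C ∪ {(x, y, c) | (x, y) ∈ newEdges n L})` iff `WS n E (C ∪ {(a, b, c - 1) | (a, b) slot of L})`
(write `L = L' ++ [q]`: the last slot has the vertex number `n + |L'|`; apply `UP`/`DOWN` with
`E' = E ∪ newEdges n L'`, then the induction hypothesis with the constraint of `q` put into `C`; the
sets `C` only matter up to equality, and `WS` is monotone in `C`). Then take
`C = {(x, y, t) | (x, y) ∈ E}`. On the left side the new edges have bound `c ≤ t` both as new edges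
and as new slots: the slots of `expand s` are exactly the new edges `(a, m)` and `(m, b)`, the latter
in the reversed direction (`dist_comm`); a slot `(a, b)` has `a ≠ b` since it is an edge `x < y`. -/
def LEVEL : Prop := ∀ (t : ℕ) (s : St) (c : ℕ), EOk s → 2 ≤ c → c ≤ t →
  (WSp t (expand s) c ↔ WSp t s (c - 1))

/-- EXPOK. Proof. `newEdges n L` contains for the `i`-th slot the pairs `(a, n + i)`, `(b, n + i)`
with `a, b < n`, `a ≠ b`; so no repetition (the second component determines `i`), and no overlap with
the old edges (second component `< n`). The new slots are new edges. Connectedness: every new vertex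
is adjacent to an old vertex, old vertices stay connected (map walks). -/
def EXPOK : Prop := ∀ s : St, EOk s → EOk (expand s) ∧
  ((graphOf (instSt s)).Connected → (graphOf (instSt (expand s))).Connected)

/-- COREOK. Proof. By the description of `coreE` (see `Mem.lean`) all edges satisfy `x < y < n`. No
repetition: the second component `y` determines the block (`y < nC`, or `y = hBase i + j` with
`j < r - 2`, or `y = aBase g + j` with `j < k`) and `j`; for a fixed `y` the first components are
different (in a gadget the three elements are different by `POk`). The slots are edges. The graph is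
connected: all vertices below `nC` are adjacent to vertex `0`, all other ones are adjacent to a vertex
below `nC`. -/
def COREOK : Prop := ∀ (t p : ℕ) (gs : List Gad), 4 ≤ t → POk p gs →
  EOk (core t p gs) ∧ (graphOf (instSt (core t p gs))).Connected

/-! ### B. Facts on trees -/

/-- PROJ. The projection of `x` to a path. Proof. Induction on `L`. `L = 0`: `i = 0`. Step: let `i` be
as claimed for `L`. `d(x, p_{L+1}) = d(x, p_L) ± 1` (`IsTree.dist_eq_dist_add_one_of_adj`). If `+`:
keep `i`. If `-`: then `i = L` (if `i < L` then `d(x, p_L) = d(x, p_{L-1}) + 1`, and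
`Pool.Agent.H673R2.Ts.dist_next`, using `p_{L-1} ≠ p_{L+1}`, gives `d(x, p_{L+1}) = d(x, p_L) + 1`);
so `d(x, p_j) = d(x, p_L) + (L - j)` for `j ≤ L` and the new `i` is `L + 1`. -/
def PROJ : Prop := ∀ (V : Type) (T : SimpleGraph V), T.IsTree → ∀ (p : ℕ → V) (L : ℕ),
  (∀ j < L, T.Adj (p j) (p (j + 1))) → (∀ j, j + 2 ≤ L → p j ≠ p (j + 2)) →
  ∀ x, ∃ i ≤ L, ∀ j ≤ L, (j ≤ i → T.dist x (p j) = T.dist x (p i) + (i - j)) ∧
    (i ≤ j → T.dist x (p j) = T.dist x (p i) + (j - i))

/-- FOUR. The four point condition. Proof (may use `PROJ`). Take a path `p 0 = x, …, p L = y` of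
`T` (`L = d(x, y)`), and let `i`, `i'` be the projections of `z`, `w` to it, with `e = d(z, p i)`,
`e' = d(w, p i')`. So `d(z, x) = e + i`, `d(z, y) = e + L - i`, `d(w, x) = e' + i'`,
`d(w, y) = e' + L - i'` and `d(z, w) ≤ e + |i - i'| + e'`. Then `d(x, y) + d(z, w) ≤
L + e + e' + |i - i'| = max (d(x, z) + d(y, w), d(x, w) + d(y, z))`. (This form of the condition
suffices; the two other forms are obtained by permuting the variables.) -/
def FOUR : Prop := ∀ (V : Type) (T : SimpleGraph V), T.IsTree → ∀ x y z w : V,
  T.dist x y + T.dist z w ≤ max (T.dist x z + T.dist y w) (T.dist x w + T.dist y z)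

/-- PAR. Parity. Proof. For fixed `x` the distance `d(x, ·)` changes by exactly one along an edge, so
by induction on a geodesic from `y` to `z`, `d(x, y) + d(y, z) + d(x, z)` is even. -/
def PAR : Prop := ∀ (V : Type) (T : SimpleGraph V), T.IsTree → ∀ x y z : V,
  (T.dist x y + T.dist y z + T.dist x z) % 2 = 0

/-! ### C. From a tree to a solution -/

/-- The vertex of the element `e`: one of the two ends of the path `P (e / 2)`. -/
def EV {V : Type} (t : ℕ) (P : ℕ → ℕ → V) (e : ℕ) : V :=
  if e % 2 = 0 then P (e / 2) 0 else P (e / 2) (rr t - 1)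

/-- What we know about a solution `T` of the core: `c 0, …, c t` is the centre path, `P i 0, …,
P i (r - 1)` the path of the pair `i`, and `a i 0, …, a i (k - 1)` are the new vertices of the gadget
`i`. -/
structure CoreTree (t p : ℕ) (gs : List Gad) (V : Type) (T : SimpleGraph V) (c : ℕ → V)
    (P : ℕ → ℕ → V) (a : ℕ → ℕ → V) : Prop where
  tree : T.IsTree
  cadj : ∀ j < t, T.Adj (c j) (c (j + 1))
  cinj : ∀ i ≤ t, ∀ j ≤ t, c i = c j → i = j
  padj : ∀ i < p, ∀ j < rr t - 1, T.Adj (P i j) (P i (j + 1))
  pinj : ∀ i < p, ∀ i' < p, ∀ j ≤ rr t - 1, ∀ j' ≤ rr t - 1, P i j = P i' j' → i = i' ∧ j = j'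
  pc : ∀ i < p, ∀ j ≤ rr t - 1, ∀ l ≤ t, P i j ≠ c l
  pnbr : ∀ i < p, ∀ j, 0 < j → j < rr t - 1 → ∀ z, T.Adj (P i j) z → ∃ j' ≤ rr t - 1, z = P i j'
  dc : ∀ e < 2 * p, T.dist (EV t P e) (c 0) ≤ t ∧ T.dist (EV t P e) (c t) ≤ t
  aadj : ∀ i < gs.length, ∀ j, j + 1 < kk t → T.Adj (a i j) (a i (j + 1))
  ainj : ∀ i < gs.length, ∀ j < kk t, ∀ j' < kk t, a i j = a i j' → j = j'
  ap : ∀ i < gs.length, ∀ j < kk t, ∀ i' < p, ∀ j' ≤ rr t - 1, a i j ≠ P i' j'
  a0 : ∀ i g, gs[i]? = some g → g.1 = false → T.Adj (EV t P g.2.1) (a i 0)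
  anbr : ∀ i g, gs[i]? = some g → ∀ j < kk t, ∀ z, T.Adj (a i j) z →
    z = EV t P g.2.1 ∨ z = EV t P g.2.2.1 ∨ z = EV t P g.2.2.2 ∨ ∃ j' < kk t, z = a i j'
  adist : ∀ i g, gs[i]? = some g → ∀ j < kk t, ∀ e, e = g.2.1 ∨ e = g.2.2.1 ∨ e = g.2.2.2 →
    T.dist (EV t P e) (a i j) ≤ t

/-- BB. For every `z` which is not an inner vertex of the path of the pair `i`, one end of the path
is between `z` and the other end; and the ends have distance `r - 1`.
Proof. `r - 1 ≥ 1`. Apply `PROJ` to the path `P i` with `L = r - 1` and to `z` (`pinj` gives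
`P i j ≠ P i (j + 2)`). Let `j` be the projection. If `j = 0` or `j = r - 1` this is the claim. Let
`0 < j < r - 1`. As `z ≠ P i j`, `P i j` has a neighbour `q` with `d(z, q) = d(z, P i j) - 1`
(second vertex of a geodesic); by `pnbr`, `q = P i j'`, but `PROJ` says `d(z, P i j') ≥ d(z, P i j)`.
The distance of the ends: `PROJ` for `x = P i 0`; `d(x, P i 0) = 0` forces the projection to be `0`. -/
def BB : Prop := ∀ (t p : ℕ) (gs : List Gad) (V : Type) (T : SimpleGraph V) (c : ℕ → V)
  (P a : ℕ → ℕ → V), 4 ≤ t → CoreTree t p gs V T c P a → ∀ i < p,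
  T.dist (P i 0) (P i (rr t - 1)) = rr t - 1 ∧
  ∀ z, (∀ j, 0 < j → j < rr t - 1 → z ≠ P i j) →
    (T.dist z (P i (rr t - 1)) = T.dist z (P i 0) + (rr t - 1) ∨
      T.dist z (P i 0) = T.dist z (P i (rr t - 1)) + (rr t - 1))

/-- TF. In every pair one end `u` is attached to the middle of the centre path and the other end `v`
is `r - 1` further away (may use `PROJ`, `FOUR`, `PAR`, `BB`).
Proof. Let `r = rr t ≥ 2`, `2 r ≤ t ≤ 2 r + 1`, `u = P i 0`, `v = P i (r - 1)`, `α = d(u, c 0)`,
`β = d(u, c t)`, `α' = d(v, c 0)`, `β' = d(v, c t)`; all are `≤ t` by `dc` (elements `2 i` and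
`2 i + 1`). `PROJ` for the centre path (`L = t`) and `c 0` gives `d(c 0, c t) = t`; for `u` it gives
`α + β = 2 e + t` with `e = d(u, c l) ≥ 1` (by `pc`), so `α + β ≥ t + 2` and `α + β ≡ t mod 2`; same
for `v`. `BB` with `z = c 0` gives `α' = α + (r - 1)` or `α = α' + (r - 1)`, and with `z = c t`
`β' = β + (r - 1)` or `β = β' + (r - 1)`. Both first: `α, β ≤ t - r + 1`, so with `α + β ≥ t + 2`,
parity and `t ≤ 2 r + 1` we get `α + β = t + 2` (otherwise `α + β ≥ t + 4 > 2 (t - r + 1)`). Both
second: the same with `u, v` exchanged. Mixed, say `α' = α + (r - 1)` and `β = β' + (r - 1)`: the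
three sums of the four points `u, v, c 0, c t` are `d(u, v) + d(c 0, c t) = (r - 1) + t`,
`d(u, c 0) + d(v, c t) = α + β - (r - 1)` and `d(u, c t) + d(v, c 0) = α + β + (r - 1)`. By `FOUR`
(in the form `third ≤ max (first, second)`) the third is at most the first, so `α + β ≤ t`: a
contradiction. The other mixed case is symmetric. -/
def TF : Prop := ∀ (t p : ℕ) (gs : List Gad) (V : Type) (T : SimpleGraph V) (c : ℕ → V)
  (P a : ℕ → ℕ → V), 4 ≤ t → CoreTree t p gs V T c P a →
  T.dist (c 0) (c t) = t ∧ ∀ i < p,
  (T.dist (P i 0) (c 0) + T.dist (P i 0) (c t) = t + 2 ∧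
    T.dist (P i (rr t - 1)) (c 0) = T.dist (P i 0) (c 0) + (rr t - 1) ∧
    T.dist (P i (rr t - 1)) (c t) = T.dist (P i 0) (c t) + (rr t - 1)) ∨
  (T.dist (P i (rr t - 1)) (c 0) + T.dist (P i (rr t - 1)) (c t) = t + 2 ∧
    T.dist (P i 0) (c 0) = T.dist (P i (rr t - 1)) (c 0) + (rr t - 1) ∧
    T.dist (P i 0) (c t) = T.dist (P i (rr t - 1)) (c t) + (rr t - 1))

/-- The element `e` is false in the tree `T`: its vertex is not attached to the centre. -/
def Fls {V : Type} (t : ℕ) (T : SimpleGraph V) (c : ℕ → V) (P : ℕ → ℕ → V) (e : ℕ) : Prop :=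
  T.dist (EV t P e) (c 0) + T.dist (EV t P e) (c t) ≠ t + 2

/-- DD. Two false elements are far apart, and the way from `l'` to `l` ends with an edge of the path
of `l` (may use `FOUR`, `PAR`, `BB`, `TF`).
Proof. Let `l, l'` be the vertices of two false elements, `u, v` the other ends of their pairs. By
`TF` the pairs are different (in a pair one end is true), `l` is the second and `u` the first end in
`TF`: with `α = d(u, c 0)`, `β = d(u, c t)`, `γ = d(v, c 0)`, `ε = d(v, c t)` we have
`α + β = t + 2 = γ + ε`, `d(l, c 0) = α + (r - 1)`, `d(l, c t) = β + (r - 1)`,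
`d(l', c 0) = γ + (r - 1)`, `d(l', c t) = ε + (r - 1)`, and all of these are `≤ t`, so
`r + 1 ≤ α, β, γ, ε ≤ t - r + 1`, hence `|γ - α| ≤ 1`. Let `X = d(l, l')`; `l ≠ l'` so `X ≥ 1`.
(1) `X = d(l', u) + (r - 1)`. Otherwise (`BB` with `z = l'`) `d(l', u) = X + (r - 1)`. `FOUR` for
`l, l', u, c 0`: `d(l', u) + d(l, c 0) ≤ max (d(l, l') + d(u, c 0), d(l, u) + d(l', c 0))`, i.e.
`X + (r - 1) + α + (r - 1) ≤ max (X + α, (r - 1) + γ + (r - 1))`, so `X + α ≤ γ`; similarly with
`c t`: `X + β ≤ ε`. Adding: `2 X + t + 2 ≤ t + 2`, `X = 0`, a contradiction.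
(2) `d(l', u) = d(v, u) + (r - 1)`. The same argument for the pair of `l'` and `z = u`: otherwise
`d(u, v) = d(u, l') + (r - 1)`; put `Y = d(u, l')`, `Y ≥ 1`; `FOUR` for `l', u, v, c 0`:
`d(u, v) + d(l', c 0) ≤ max (d(l', u) + d(v, c 0), d(l', v) + d(u, c 0))`, i.e.
`Y + (r - 1) + γ + (r - 1) ≤ max (Y + γ, (r - 1) + α)`, so `Y + γ + (r - 1) ≤ α`; with `c t`:
`Y + ε + (r - 1) ≤ β`; adding gives a contradiction.
(3) `d(u, v) ≥ 2`: `u ≠ v` so `d(u, v) ≥ 1`; if `d(u, v) = 1` then `α + γ` is odd (`PAR`), so
`{α, γ} = {r + 1, r + 2}`, `t = 2 r + 1`, and say `α = r + 1`, `γ = r + 2`, `β = r + 2`, `ε = r + 1`: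
`FOUR`: `d(u, c t) + d(v, c 0) = 2 r + 4 ≤ max (d(u, v) + d(c 0, c t), d(u, c 0) + d(v, c t)) =
max (1 + 2 r + 1, 2 r + 2)`, a contradiction; same in the other case.
So `X ≥ 2 + 2 (r - 1) = 2 r`. The vertex `q`: the neighbour of `l` on its path (`P i 1` if
`l = P i 0`, `P i (r - 2)` if `l = P i (r - 1)`); `d(q, u) ≤ r - 2` (walk along the path), so
`d(l', q) ≤ d(l', u) + (r - 2) = X - 1` by (1), and `≥ X - 1` since `q ~ l`. -/
def DD : Prop := ∀ (t p : ℕ) (gs : List Gad) (V : Type) (T : SimpleGraph V) (c : ℕ → V)
  (P a : ℕ → ℕ → V), 4 ≤ t → CoreTree t p gs V T c P a → ∀ e < 2 * p, ∀ e' < 2 * p, e ≠ e' →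
  Fls t T c P e → Fls t T c P e' →
  2 * rr t ≤ T.dist (EV t P e) (EV t P e') ∧
  ∃ i < p, ∃ j ≤ rr t - 1, T.Adj (EV t P e) (P i j) ∧
    T.dist (EV t P e') (P i j) + 1 = T.dist (EV t P e') (EV t P e)

/-- GAD (may use `FOUR`, `PAR`, `TF`, `DD`). Proof. Let `τ e = true` iff `e` is not false (`Fls`).
By `TF`, of the two ends of a pair exactly one is false (the second end in `TF` has sum of distances
`t + 2 + 2 (r - 1) ≠ t + 2`), so `τ (2 i + 1) = !(τ (2 i))`. Let `g` be the gadget number `i`.
Key fact (*): if two different elements `e, e'` of `g` are false then `EV e` is not adjacent to any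
`a i j`. Proof: let `l = EV e`, `l' = EV e'`, `X = d(l', l) ≥ 2 r`, and `q = P i' j'` as in `DD`
(`d(l', q) = X - 1`, `q ~ l`), and `l ~ b = a i j`; `q ≠ b` by `ap`. `d(l', b) = X ± 1`. If `X - 1`:
`FOUR` for `l', l, b, q`: `d(l', l) + d(b, q) ≤ max (d(l', b) + d(l, q), d(l', q) + d(l, b)) = X`, so
`b = q`, a contradiction. So `d(l', b) = X + 1 ≥ 2 r + 1`. If `k = 1` then `t = 2 r`, contradicting
`adist`. If `k = 2` then `t = 2 r + 1` and the other new vertex `b'` of `g` (`aadj`) satisfies
`d(l', b') = X + 2 ≥ 2 r + 2` (`dist_next` for `l, b, b'`; `b' ≠ l` by `ap`), contradicting `adist`.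
Kind `false`: `EV x ~ a i 0` by `a0`. If `x` is false and `y` (or `w`) is false, this contradicts (*)
(`x ≠ y`, `x ≠ w` by `POk`). Kind `true`: assume that all three elements are false. `T` is connected,
so some `a i j` has a neighbour which is not one of the `a i j'` (take a walk from `a i 0` to `c 0`;
`c 0` is not an `a i j`: otherwise all the neighbours of it would be elements or `a`'s, but `c 1` is
its neighbour ... simpler: walk from `a i 0` to `EV x`, which is not an `a i j` by `ap`; take the
last vertex of the walk which is an `a i j`); by `anbr` it is the vertex of an element of `g`, and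
this contradicts (*) (the other two elements are different from it and false). -/
def GAD : Prop := ∀ (t p : ℕ) (gs : List Gad) (V : Type) (T : SimpleGraph V) (c : ℕ → V)
  (P a : ℕ → ℕ → V), 4 ≤ t → POk p gs → CoreTree t p gs V T c P a → PSat p gs

/-- CT. Proof. Take the tree `T` on `Fin n`, `n = aBase t p |gs|`; all vertices used are `< n`; for
`x < n` write `x` for the vertex. `c j = j`; `P i 0 = el t (2 i)`, `P i (r - 1) = el t (2 i + 1)`,
`P i j = hBase t p i + (j - 1)` for `0 < j < r - 1`; `a i j = aBase t p i + j` (use a default vertex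
outside the range). The slots have distance at most `1` in `T`, and the two vertices are different,
so they are adjacent in `T`: this gives `cadj`, `padj`, `aadj`, `a0` (description of `coreS` in
`Mem.lean`). `pnbr`, `anbr`: `T.Adj` implies being an edge of `coreE`, and by the description of
`coreE` in `Mem.lean` an edge with the vertex `hBase t p i + j` (or `aBase t p i + j`) is in the
clique of the pair `i` (of the gadget `i`): it cannot be the first component of an edge of another
block, since the first components there are elements or in the same block. `dc`: edges of the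
clique; `adist`: edges of the gadget. -/
def CT : Prop := ∀ (t p : ℕ) (gs : List Gad), 4 ≤ t → POk p gs → WSp t (core t p gs) 1 →
  ∃ (V : Type) (T : SimpleGraph V) (c : ℕ → V) (P a : ℕ → ℕ → V), CoreTree t p gs V T c P a

/-! ### D. From a solution to a tree -/

/-- PT. Proof. `T` is the graph of the parent function (`isTree_of_parent`, `lev` decreases);
`d(x, root) ≤ lev x` by induction on `lev x`; then the triangle inequality. -/
def PT : Prop := ∀ (n root : ℕ) (par lev : ℕ → ℕ), root < n → lev root = 0 →
  (∀ x < n, x ≠ root → par x < n ∧ lev (par x) + 1 = lev x) →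
  ∃ T : SimpleGraph (Fin n), T.IsTree ∧
    (∀ x y : Fin n, T.Adj x y ↔ ((x : ℕ) ≠ root ∧ (y : ℕ) = par x) ∨
      ((y : ℕ) ≠ root ∧ (x : ℕ) = par y)) ∧
    ∀ x y : Fin n, T.dist x y ≤ lev x + lev y

/-- CPL (may use `PT`). Proof. Let `τ` be the solution. The root is `r` (the vertex `c r`).
Parents and levels:
* `x ≤ t`: `par x = x + 1` if `x < r`, `x - 1` if `x > r`; `lev x = |x - r|`.
* `x = el t e`, `e < 2 p`: if `τ e` then `par x = r`, `lev x = 1`. Otherwise `lev x = r` and the
  parent is: the other element of the pair if `r = 2`; if `r > 2`, `hBase i` for `e = 2 i` and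
  `hBase i + (r - 3)` for `e = 2 i + 1`.
* `x = hBase i + j`, `j < r - 2`: if `τ (2 i)`: `lev x = 2 + j`, `par x = x - 1` if `j > 0`,
  `el t (2 i)` if `j = 0`. Otherwise (`τ (2 i + 1)`): `lev x = r - 1 - j`, `par x = x + 1` if
  `j < r - 3`, `el t (2 i + 1)` if `j = r - 3`.
* `x = aBase g + j`: `par x = x - 1` if `j > 0`; for `j = 0`: the first element of `g` if the kind is
  `false`, and a true element of `g` if the kind is `true`; `lev x = lev (that element) + 1 + j`.
All pairs `(x, par x)` are edges of `coreE`. The slots are pairs `(x, par x)`, so distance `≤ 1`.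
Distances of edges `(x, y)`: `d(x, y) ≤ lev x + lev y`, and this is `≤ t` in these cases:
* `x, y ≤ t`, `x ≠ y`: at most `(t - r) + (t - r - 1) ≤ t` since `t ≤ 2 r + 1`.
* `x ≤ t`, `y` an element: `(t - r) + r`. Two elements: `r + r`.
* in the clique of the pair `i`: the levels are different numbers `≤ r`.
* a gadget with its new vertices attached to an element of level `1` (kind `true`, or kind `false`
  and the first element true): `lev (new) ≤ 1 + k`, elements have level `≤ r`,
  `1 + k + r = t + 2 - r ≤ t`.
* kind `false`, first element `x0` false: then the two other ones are true, of level `1`;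
  `lev (new) ≤ r + k`, and `r + k + 1 = t + 2 - r ≤ t`. The distance of `x0` and the new vertex `j` is
  at most `j + 1 ≤ 2` (path `x0, a 0, a 1`), and `d(a 0, a 1) ≤ 1`. -/
def CPL : Prop := ∀ (t p : ℕ) (gs : List Gad), 4 ≤ t → POk p gs → PSat p gs →
  WSp t (core t p gs) 1

/-! ### E. Path graphs -/

/-- PGT. Proof. Call `PP adj a b S` (an inductive predicate): `PP a a {a}`; if `PP a b S`,
`adj a' a`, `a' ∉ S` then `PP a' b (S ∪ {a'})`; if `PP a b S`, `adj b b'`, `b' ∉ S` then
`PP a b' (S ∪ {b'})`; `a, b ∈ S`. By induction on `Built`: there are a parent function `π` with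
`π x < x` for `0 < x < N` and sets `S v` such that for `v < n`: `PP (e v false) (e v true) (S v)`
(adjacency: `x ≠ 0 ∧ y = π x` or reversed), `S v ⊆ {0, …, N - 1}`; all pairs in `E` satisfy
`u < v < n`; and for `u < v < n`: `(u, v) ∈ E` iff `S u ∩ S v ≠ ∅`. Root: `S v = {0}`. Step: `π N = ν`,
`S' v = S v ∪ {N}` for `v ∈ A.map fst` (one end of `v`, which is at `ν`, moves to `N`; the other end
stays because the vertices of `A` are different), `S' v = {N}` for `n ≤ v < n + m`, else `S' v = S v`.
If `u < v < n` are both in `A.map fst` then already `ν ∈ S u ∩ S v`, so `(u, v) ∈ E`. Finally the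
graph of `π` on `Fin N` is a tree (`isTree_of_parent` with root `0` and `lev x = x`; `N ≥ 1`), and
`PP a b S` with `S ⊆ {0, …, N - 1}` gives a path from `a` to `b` with support `S` (`Walk.cons`,
`Walk.concat`). -/
def PGT : Prop := ∀ (n N : ℕ) (E : Set (ℕ × ℕ)) (e : ℕ → Bool → ℕ), Built n N E e →
  ∀ G : SimpleGraph (Fin n), (∀ x y : Fin n, x < y → (G.Adj x y ↔ ((x : ℕ), (y : ℕ)) ∈ E)) →
    IsPathGraph G

/-- BEXP. Proof. Induction on the list of slots, for every prefix `L'` of the list
`L = L' ++ L''`: the state after the slots of `L'` are processed is `Built` with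
`n + |L'|` vertices, `N + |L'|` nodes and edges `E ∪ newEdges n L'`, the slots of `newSlots n N L'` and
of `L''` are at their nodes, and all the ends occurring in them are different. Step for the slot
`(ν, x, y)` with number `i`: `Built.op` with this `ν`, `A = [x, y]` (different vertices), `m = 1`: the
new node is `N + i`, the new vertex is `n + i`, the new edges are `(x.1, n + i)`, `(y.1, n + i)`, and
the ends `x`, `y`, `(n + i, false)`, `(n + i, true)` are at the node `N + i`, nothing else changes
for the vertices `< n + i`. -/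
def BEXP : Prop := ∀ s : St, BOk s → BOk (expand s)

/-- BCORE. Proof. `Built.root (nC t p)`; then for `i = 0, …, p - 1` the operation with `ν = 0`,
`A = [(el t (2 i), false), (el t (2 i + 1), false)]`, `m = r - 2` (new node `1 + i`, first new vertex
`hBase t p i`); then for every gadget number `i` the operation with `ν = 0`, `A` the ends `true` of its
three elements, `m = k` (new node `1 + p + i`, first new vertex `aBase t p i`). Invariant for `e`
after these operations: `e (j) b = 0` for `j ≤ t`; `e (el t f) false = 1 + f / 2` if the pair is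
processed, else `0`; `e (el t f) true = 1 + p + i` if `f` is an element of the processed gadget `i`
(unique by `POk`), else `0`; both ends of a new vertex are at the node at which it was added. The
edges are those of `coreE` (see `Mem.lean`). The slots of `coreS` are at their nodes, and their ends
are different: `(j, true)` for `j < t` and `(j, false)` for `0 < j ≤ t`; `(el t f, false)` once each;
both ends of the new vertices of a pair; `(el t f, true)` at most once (only for the first element of
a gadget); ends of the new vertices of a gadget. -/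
def BCORE : Prop := ∀ (t p : ℕ) (gs : List Gad), 4 ≤ t → POk p gs → BOk (core t p gs)

/-- CHO. Path graphs are chordal. Proof. Let `P_0, …, P_{m-1}` (`m ≥ 4`) be paths of the tree `H` such
that for `i ≠ j` `P_i` and `P_j` meet iff `i, j` are consecutive mod `m` (an embedding of the cycle
graph). Fix a node `ρ`. For a path with nodes `p 0, …, p L` let `top` be the projection of `ρ`
(`PROJ` may be used): `d(ρ, p j) = d(ρ, top) + |j - i|`. Fact: if `x ∈ P ∩ P'` and
`d(ρ, top P) ≥ d(ρ, top P')` then `top P ∈ P'`: going from `x` along `P` to `top P` each step goes to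
the unique neighbour nearer to `ρ`, and the same holds for the way along `P'` from `x` to `top P'`,
which is at least as long; so the first way is an initial part of the second one. Take `i` such that
`d(ρ, top P_i)` is maximal. Then `top P_i ∈ P_{i-1}` and `top P_i ∈ P_{i+1}`, so `P_{i-1}` and
`P_{i+1}` meet, but `i - 1` and `i + 1` are different and not consecutive as `m ≥ 4`. (Any other
proof is fine.) -/
def CHO : Prop := ∀ (n : ℕ) (G : SimpleGraph (Fin n)), IsPathGraph G → IsChordal G

/-! ### F. From 3SAT to the intermediate problem -/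

/-- The root element of a literal. -/
def lit (x : Lit ℕ) : ℕ := if x.1 = true then 2 * x.2 else 2 * x.2 + 1

/-- The number of root pairs. -/
def nv (φ : List (Lit ℕ × Lit ℕ × Lit ℕ)) : ℕ := 3 * φ.length

/-- The element `y` number `j` of the literal `l`. -/
def yv (φ : List (Lit ℕ × Lit ℕ × Lit ℕ)) (l j : ℕ) : ℕ := 2 * (nv φ + (l * φ.length + j))

/-- The element `w` number `j` of the literal `l`. -/
def wv (φ : List (Lit ℕ × Lit ℕ × Lit ℕ)) (l j : ℕ) : ℕ :=
  2 * (nv φ + 2 * nv φ * φ.length + (l * φ.length + j))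

/-- The head number `j` of the literal `l`. -/
def hd (φ : List (Lit ℕ × Lit ℕ × Lit ℕ)) (l j : ℕ) : ℕ := if j = 0 then l else wv φ l (j - 1) + 1

/-- The number of pairs. -/
def pOf (φ : List (Lit ℕ × Lit ℕ × Lit ℕ)) : ℕ := nv φ + 4 * nv φ * φ.length

/-- The gadgets: for every literal `l < 2 * nv φ` and every `j < m` (`m` is the number of clauses) the
gadget `hd j ∨ (y j ∧ w j)`, and for every clause `j` the gadget `y' j ∨ y' j ∨ y' j` for its
literals, where `y'` is the other element of the pair of `y`. -/
def gOf (φ : List (Lit ℕ × Lit ℕ × Lit ℕ)) : List Gad :=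
  ((List.range (2 * nv φ)).flatMap fun l => (List.range φ.length).map fun j =>
    (false, hd φ l j, yv φ l j, wv φ l j)) ++
  φ.zipIdx.map fun c => (true, yv φ (lit c.1.1) c.2 + 1, yv φ (lit c.1.2.1) c.2 + 1,
    yv φ (lit c.1.2.2) c.2 + 1)

/-- SATOK. Proof. All elements are `< 2 * pOf φ` (`lit x < 2 * nv φ` by `Bounded3`). They are
different: the element determines its kind (`< 2 nv`: head 0 of the literal; then `y`/`w` even/odd by
size and parity), and `l`, `j`; a `y'` occurs only in clause `j`, for the three literals of the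
clause, which are different since the variables are different. -/
def SATOK : Prop := ∀ φ, Distinct3 φ → Bounded3 φ → POk (pOf φ) (gOf φ)

/-- SATEQ. Proof. (→) Let `τ` satisfy `φ`, `lv l = τ (l / 2)` for even `l` and `!τ (l / 2)` for odd
`l`. Let `σ e = lv e` for `e < 2 nv`; for the pairs of `y`, `w` of the literal `l` (`l = (e / 2 - nv) / m`
resp. `(e / 2 - nv - 2 nv m) / m`) let `σ e = !(lv l)` for even `e` and `σ e = lv l` for odd `e`. The
first kind of gadgets: the head has value `lv l`, `y` and `w` have value `!(lv l)`. The second kind: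
`y'` has the value of the literal.
(←) Let `σ` be a solution and `τ v = σ (2 v)`. Claim: if the head `j` of `l` is true then
`σ l = true`: for `j = 0` trivial; the head `j + 1` is `w' j`, so `w j` is false, so by the gadget the
head `j` is true. For the clause `j` some `y' j` of one of its literals `x` is true, so `y j` is
false, the head `j` is true, and `σ (lit x) = true`, so the literal `x` is true (for `lit x = 2 v + 1`
use `σ (2 v + 1) = !σ (2 v)`, `v < nv φ`). -/
def SATEQ : Prop := ∀ φ, Bounded3 φ → (SAT3 φ ↔ PSat (pOf φ) (gOf φ))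

/-- SATPOLY. Proof. `UPoly` is closed under `+`, `*`, constants and length (`Num.lean`); the gadgets
with `Poly.flatMap`, `Poly.map`, `UPoly.range`, `Poly.zipIdx`, `Poly.ite` and arithmetic; see
`Pool.Agent.H673R2.TsFinal` (`p_inst`) for a sample. -/
def SATPOLY : Prop := UPoly pOf ∧ Poly gOf

/-- PCORE. Proof. `t` is a constant; as in `SATPOLY`. -/
def PCORE : Prop := ∀ (α : Type) [TEnc α] (t : ℕ) (p : α → ℕ) (gs : α → List Gad), UPoly p →
  Poly gs → Poly (fun x => core t (p x) (gs x))

/-- PEXP. Proof. As in `SATPOLY`. -/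
def PEXP : Prop := Poly expand

/-! ### G. Membership in NP -/

/-- NPM. Proof. A certificate is a list `F` of edges of `I` (pairs of the list), without repetition,
with `|F| + 1 = n`, such that for every edge `(x, y)` of `I` there is a walk of length at most `t` from
`x` to `y` in `F`. Polynomial-time check: `Valid I` (nodup, bounds, and connectedness; for the
connectedness use that it follows from the certificate: put a list of parents and levels into the
certificate, or use that the graph is connected iff `F` is: every vertex has a walk of length `≤ n`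
to the vertex `0`; e.g. iterate `n` times the closure of `{0}` under `F` with `Poly.iterLen`) and,
for the constant `t`, the predicate `Reach s F x y` (`Reach 0 = (x = y)`, `Reach (s + 1) x y` iff
`Reach s x y` or some pair `(u, v)` of `F` has `Reach s x u ∧ v = y` or `Reach s x v ∧ u = y`) is
polynomial by induction on `s` (`Poly.any`). Correctness: if `T` is a tree `t`-spanner then `F` = the
edges of `I` which are edges of `T` (`isTree` gives `|F| + 1 = n`, every edge is stretched to length
at most `t`). Conversely `F` defines a graph `T ≤ G` in which the ends of every edge of `G` have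
distance at most `t`, so `T` is connected, and with `n - 1` edges it is a tree
(`SimpleGraph.isTree_iff_connected_and_card`), and `Pool.Agent.H673R2.Ts.stretch_of_adj` applies.
Use `inNPP_of` in `Pool.Agent.NPC.Dec`. -/
def NPM : Prop := ∀ t : ℕ, InNPP (fun I : Inst => Valid I ∧ HasTreeSpanner t I)

end Pool.Agent.W312.TP
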